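import Pool.Agent.ZP3.StmtsP

/-!
Squad ZP3, row PPT: preparations (finitely generated series, evaluation as a ring homomorphism).
-/

set_option autoImplicit false

namespace Pool.Agent.ZP3.H3

open Polynomial Pool.Agent.ZPT Pool.Agent.ZP3

noncomputable section

/-- Common generators. -/
theorem common (T : Finset (PowerSeries Qb)) (h : ∀ f ∈ T, FG f) :
    ∃ S : Finset Qb, ∀ f ∈ T, ∀ n, PowerSeries.coeff n f ∈ Subring.closure (S : Set Qb) := by
  classical
  induction T using Finset.induction_on with
  | empty => exact ⟨∅, by simp⟩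
  | insert a s ha ih =>
    obtain ⟨S, hS⟩ := ih (fun f hf => h f (Finset.mem_insert_of_mem hf))
    obtain ⟨S', hS'⟩ := h a (Finset.mem_insert_self a s)
    refine ⟨S ∪ S', ?_⟩
    intro f hf n
    rcases Finset.mem_insert.1 hf with rfl | hf
    · exact Subring.closure_mono (by simp) (hS' n)
    · exact Subring.closure_mono (by simp) (hS f hf n)

theorem fg_poly (f : Qb[X]) : FG (f : PowerSeries Qb) := by
  refine ⟨f.coeffs, fun n => ?_⟩
  rw [Polynomial.coeff_coe]
  by_cases h : f.coeff n = 0
  · rw [h]; exact zero_mem _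
  · exact Subring.subset_closure (Polynomial.coeff_mem_coeffs h)

theorem evK_poly {K : Type} [NormedField K] (ι : Qb →+* K) (f : Qb[X]) (s : K) :
    evK ι (f : PowerSeries Qb) s = f.eval₂ ι s := by
  unfold evK
  rw [Polynomial.eval₂_eq_sum_range, tsum_eq_sum (s := Finset.range (f.natDegree + 1))]
  · simp only [Polynomial.coeff_coe]
  · intro n hn
    have : f.coeff n = 0 := Polynomial.coeff_eq_zero_of_natDegree_lt (by
      simp only [Finset.mem_range, not_lt] at hn; omega)
    rw [Polynomial.coeff_coe, this]; simp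

/-- Series with coefficients in the ring generated by `S`. -/
def PS (S : Finset Qb) : Subring (PowerSeries Qb) where
  carrier := {f | ∀ n, PowerSeries.coeff n f ∈ Subring.closure (S : Set Qb)}
  mul_mem' := by
    intro f g hf hg n
    rw [PowerSeries.coeff_mul]
    exact Subring.sum_mem _ (fun x _ => Subring.mul_mem _ (hf _) (hg _))
  one_mem' := by
    intro n
    rw [PowerSeries.coeff_one]
    split_ifs
    · exact one_mem _
    · exact zero_mem _
  add_mem' := by
    intro f g hf hg n
    rw [map_add]
    exact Subring.add_mem _ (hf n) (hg n)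
  zero_mem' := by
    intro n
    rw [map_zero]
    exact zero_mem _
  neg_mem' := by
    intro f hf n
    rw [map_neg]
    exact Subring.neg_mem _ (hf n)

theorem mem_PS {S : Finset Qb} {f : PowerSeries Qb} :
    f ∈ PS S ↔ ∀ n, PowerSeries.coeff n f ∈ Subring.closure (S : Set Qb) := Iff.rfl

theorem X_mem_PS (S : Finset Qb) : (PowerSeries.X : PowerSeries Qb) ∈ PS S := by
  intro n
  rw [PowerSeries.coeff_X]
  split_ifs
  · exact one_mem _
  · exact zero_mem _

theorem expand_mem_PS {S : Finset Qb} (m : ℕ) (hm : m ≠ 0) {f : PowerSeries Qb} (hf : f ∈ PS S) :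
    PowerSeries.expand m hm f ∈ PS S := by
  intro n
  rw [PowerSeries.coeff_expand]
  split_ifs
  · exact hf _
  · exact zero_mem _

/-- The evaluation as a ring homomorphism. -/
theorem exists_phi (evf : EVFStmt) (K : Type) [NormedField K] [CharZero K] [IsUltrametricDist K]
    [CompleteSpace K] (ι : Qb →+* K) (S : Finset Qb) (hS : ∀ g ∈ S, ‖ι g‖ ≤ 1) (t : K)
    (ht : ‖t‖ < 1) : ∃ φ : PS S →+* K, ∀ f : PS S, φ f = evK ι f.1 t := by
  have one : evK ι (1 : PowerSeries Qb) t = 1 := by
    have h := (evf K ι S hS t ht 1 1 (PS S).one_mem (PS S).one_mem).2.2.2.1 1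
    rw [map_one, map_one] at h
    exact h
  have zero : evK ι (0 : PowerSeries Qb) t = 0 := by
    unfold evK; simp
  exact ⟨{ toFun := fun f => evK ι f.1 t
           map_one' := one
           map_zero' := zero
           map_mul' := fun f g => (evf K ι S hS t ht f.1 g.1 f.2 g.2).2.1
           map_add' := fun f g => (evf K ι S hS t ht f.1 g.1 f.2 g.2).1 }, fun f => rfl⟩

/-- The finitely generated series form a ring. -/
theorem fg_ring (fgs : FGSStmt) : ∃ R : Subring (PowerSeries Qb), ∀ f, f ∈ R ↔ FG f := by
  obtain ⟨h1, hC, _, _, _, _⟩ := fgs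
  refine ⟨{ carrier := {f | FG f}
            mul_mem' := fun {f g} hf hg => (h1 f g hf hg).2.1
            one_mem' := by
              have := hC 1
              rw [map_one] at this
              exact this
            add_mem' := fun {f g} hf hg => (h1 f g hf hg).1
            zero_mem' := by
              have := hC 0
              rw [map_zero] at this
              exact this
            neg_mem' := fun {f} hf => (h1 f f hf hf).2.2.1 }, fun f => Iff.rfl⟩

/-- Elements of the ring generated by unramified elements are unramified. -/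
theorem ur_closure (urr : URRStmt) (p : ℕ) (hp : p.Prime) (K : Type) [NormedField K] [CharZero K]
    [IsUltrametricDist K] (hE : Ext p K) (ι : Qb →+* K) (S : Finset Qb)
    (hS : ∀ g ∈ S, Ur p (ι g)) (x : Qb) (hx : x ∈ Subring.closure (S : Set Qb)) :
    Ur p (ι x) := by
  obtain ⟨h1, h2, h3, _, _⟩ := urr p hp K hE
  induction hx using Subring.closure_induction with
  | mem x hx => exact hS x hx
  | zero => have := h3 0; rw [Int.cast_zero] at this; rw [map_zero]; exact this
  | one => have := h3 1; rw [Int.cast_one] at this; rw [map_one]; exact this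
  | add x y _ _ hx hy => rw [map_add]; exact (h1 _ _ hx hy).1
  | neg x _ hx => rw [map_neg]; exact (h1 _ _ hx hx).2.2.1
  | mul x y _ _ hx hy => rw [map_mul]; exact (h1 _ _ hx hy).2.1

/-- The polynomial identity. -/
theorem alg {K : Type} [Field K] (d : ℕ) (hd : 1 ≤ d) (γ : ℕ → K) (x : K) :
    (γ d * x) ^ d + ∑ i ∈ Finset.range d, γ i * γ d ^ (d - 1 - i) * (γ d * x) ^ i =
      γ d ^ (d - 1) * ∑ i ∈ Finset.range (d + 1), γ i * x ^ i := by
  rw [Finset.sum_range_succ, mul_add, Finset.mul_sum, add_comm]
  congr 1
  · refine Finset.sum_congr rfl fun i hi => ?_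
    have hi' : i ≤ d - 1 := by have := Finset.mem_range.1 hi; omega
    have : γ d ^ (d - 1) = γ d ^ (d - 1 - i) * γ d ^ i := by
      rw [← pow_add]; congr 1; omega
    rw [this, mul_pow]; ring
  · have : γ d ^ d = γ d ^ (d - 1) * γ d := by
      rw [← pow_succ]; congr 1; omega
    rw [mul_pow, this]; ring

theorem evQ_sum {K : Type} [Field K] (ι : Qb →+* K) (G : Qb[X][X]) (x y : K) :
    evQ ι G x y = ∑ i ∈ Finset.range (G.natDegree + 1), (G.coeff i).eval₂ ι x * y ^ i := by
  unfold evQ
  rw [Polynomial.eval_map, Polynomial.eval₂_eq_sum_range]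
  rfl

theorem reflect_eval {K : Type} [Field K] (ι : Qb →+* K) (D : ℕ) (f : Qb[X])
    (hf : f.natDegree ≤ D) (x : K) (hx : x ≠ 0) :
    (reflect D f).eval₂ ι x⁻¹ * x ^ D = f.eval₂ ι x := by
  let _ := invertibleOfNonzero hx
  have := eval₂_reflect_mul_pow ι x D f hf
  rw [invOf_eq_inv] at this
  exact this

end

end Pool.Agent.ZP3.H3
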